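import Pool.Agent.Y228.HX.Stm

/-!
# A complete fan in the span of a simplicial cone, adapted to hyperplanes
-/

set_option autoImplicit false

namespace Pool.Agent.Y620.HX

open Pool.Agent.Y228.HX

variable {W : Type} [AddCommGroup W] [Module ℚ W] {p : ℕ}

/-- the sign -/
def sg (b : Bool) : ℚ := if b then 1 else -1

lemma sg_mul_self (b : Bool) : sg b * sg b = 1 := by
  unfold sg
  split_ifs <;> norm_num

/-- the orthant with the signs `e` -/
def orth (s : Smp W p) (e : Fin p → Bool) : Smp W p where
  g i := sg (e i) • s.g i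
  φ i := sg (e i) • s.φ i
  dual i j := by
    rw [LinearMap.smul_apply, map_smul, s.dual i j]
    split_ifs with h
    · subst h
      simp only [smul_eq_mul, mul_one]
      exact sg_mul_self _
    · simp

lemma orth_pr (s : Smp W p) (e : Fin p → Bool) (x : W) : (orth s e).pr x = s.pr x := by
  unfold Smp.pr
  refine Finset.sum_congr rfl fun i _ => ?_
  show (sg (e i) • s.φ i) x • (sg (e i) • s.g i) = s.φ i x • s.g i
  rw [LinearMap.smul_apply, smul_smul, smul_eq_mul]
  congr 1
  have := sg_mul_self (e i)
  linear_combination (s.φ i x) * this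

lemma pr_g (s : Smp W p) (i : Fin p) : s.pr (s.g i) = s.g i := by
  unfold Smp.pr
  rw [Finset.sum_eq_single i]
  · rw [s.dual, if_pos rfl, one_smul]
  · intro j _ hj
    rw [s.dual, if_neg hj, zero_smul]
  · intro h
    exact absurd (Finset.mem_univ i) h

lemma orth_in (s : Smp W p) (ξ x : W) (hξ : ∀ i, s.φ i ξ ≠ 0) (e : Fin p → Bool) :
    (orth s e).In ξ x ↔ e = fun i => decide (0 < s.φ i x ∨ (s.φ i x = 0 ∧ 0 < s.φ i ξ)) := by
  have hφ : ∀ i y, (orth s e).φ i y = sg (e i) * s.φ i y := fun i y => rfl
  unfold Smp.In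
  constructor
  · intro h
    funext i
    obtain ⟨h1, h2⟩ := h i
    rw [hφ, hφ] at *
    have h3 := hξ i
    unfold sg at h1 h2
    cases he : e i
    · rw [he] at h1 h2
      simp only [Bool.false_eq_true, if_false] at h1 h2
      symm
      rw [decide_eq_false_iff_not]
      rintro (h4 | ⟨h4, h5⟩)
      · linarith
      · have := h2 (by linarith)
        linarith
    · rw [he] at h1 h2
      simp only [if_true] at h1 h2
      symm
      rw [decide_eq_true_iff]
      rcases lt_or_eq_of_le (show 0 ≤ s.φ i x by linarith) with h4 | h4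
      · exact Or.inl h4
      · refine Or.inr ⟨h4.symm, ?_⟩
        rcases lt_or_gt_of_ne h3 with h5 | h5
        · have := h2 (by linarith)
          linarith
        · exact h5
  · intro h i
    have hi := congrFun h i
    rw [hφ, hφ]
    have h3 := hξ i
    unfold sg
    cases he : e i
    · rw [he] at hi
      have h4 := decide_eq_false_iff_not.1 hi.symm
      push Not at h4
      obtain ⟨h4, h5⟩ := h4
      simp only [Bool.false_eq_true, if_false]
      refine ⟨by linarith, fun h6 => ?_⟩
      rcases lt_or_eq_of_le h4 with h7 | h7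
      · linarith
      · have := h5 h7
        exfalso
        linarith
    · rw [he] at hi
      have h4 := decide_eq_true_iff.1 hi.symm
      simp only [if_true]
      rcases h4 with h4 | ⟨h4, h5⟩
      · exact ⟨by linarith, fun _ => by linarith⟩
      · refine ⟨by linarith, fun h6 => ?_⟩
        exfalso
        linarith

lemma sum_orth (s : Smp W p) (ξ x : W) (hξ : ∀ i, s.φ i ξ ≠ 0) :
    ∑ e : Fin p → Bool, indi ((orth s e).In ξ x) = 1 := by
  classical
  rw [Finset.sum_eq_single
    (fun i => decide (0 < s.φ i x ∨ (s.φ i x = 0 ∧ 0 < s.φ i ξ)))]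
  · unfold indi
    rw [if_pos ((orth_in s ξ x hξ _).2 rfl)]
  · intro e _ he
    unfold indi
    rw [if_neg fun h => he ((orth_in s ξ x hξ e).1 h)]
  · intro h
    exact absurd (Finset.mem_univ _) h

lemma sum_flatMap {A B : Type} (l : List A) (S : A → List B) (f : B → ℤ) :
    ((l.flatMap S).map f).sum = (l.map fun a => ((S a).map f).sum).sum := by
  induction l with
  | nil => simp
  | cons a l ih =>
    rw [List.flatMap_cons, List.map_append, List.sum_append, ih, List.map_cons, List.sum_cons]

/-- **HX-FAN** -/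
theorem t_FAN : S_CUT → S_FAN := by
  intro hcut W _ _ p s L
  choose S F hF hS hc using fun e : Fin p → Bool => hcut W p (orth s e) L
  refine ⟨(Finset.univ : Finset (Fin p → Bool)).toList.flatMap S,
    List.ofFn s.φ ++ (Finset.univ : Finset (Fin p → Bool)).toList.flatMap F, ?_, ?_, ?_⟩
  · intro f hf
    rw [List.mem_append, List.mem_ofFn, List.mem_flatMap] at hf
    rcases hf with ⟨i, rfl⟩ | ⟨e, -, he⟩
    · refine ⟨s.g i, pr_g s i, ?_⟩
      rw [s.dual, if_pos rfl]
      exact one_ne_zero
    · obtain ⟨x, hx, hfx⟩ := hF e f he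
      rw [orth_pr] at hx
      exact ⟨x, hx, hfx⟩
  · intro s' hs'
    rw [List.mem_flatMap] at hs'
    obtain ⟨e, -, he⟩ := hs'
    obtain ⟨h1, h2⟩ := hS e s' he
    exact ⟨fun x => by rw [h1 x, orth_pr], h2⟩
  · intro ξ hξ
    have hξ1 : ∀ i, s.φ i ξ ≠ 0 := fun i => hξ _ (by
      rw [List.mem_append, List.mem_ofFn]
      exact Or.inl ⟨i, rfl⟩)
    have hξ2 : ∀ e : Fin p → Bool, ∀ f ∈ F e, f ξ ≠ 0 := fun e f hf => hξ _ (by
      rw [List.mem_append, List.mem_flatMap]
      exact Or.inr ⟨e, by simp, hf⟩)
    refine ⟨?_, fun x => ?_⟩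
    · intro s' hs' i
      rw [List.mem_flatMap] at hs'
      obtain ⟨e, -, he⟩ := hs'
      exact (hc e ξ (hξ2 e)).1 s' he i
    · rw [sum_flatMap]
      have h1 : ((Finset.univ : Finset (Fin p → Bool)).toList.map fun e =>
          ((S e).map fun s' => indi (s'.In ξ x)).sum) =
          (Finset.univ : Finset (Fin p → Bool)).toList.map fun e =>
            indi ((orth s e).In ξ x) :=
        List.map_congr_left fun e _ => ((hc e ξ (hξ2 e)).2 x).symm
      rw [h1, Finset.sum_map_toList]
      exact sum_orth s ξ x hξ1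

end Pool.Agent.Y620.HX
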